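import Pool.Agent.H90.STK.Stmts

set_option autoImplicit false

namespace Pool.STK.Q22

open Finset Real
open Pool.Agent.H49.Ent Pool.Agent.H32.Dense

lemma CH_pi {Ω S T : Type} [Fintype Ω] {p : Ω → ℝ} (hp : ∀ ω, 0 ≤ p ω) (W : Ω → T) :
    ∀ (n : ℕ) (X : Ω → Fin n → S), CH p X W ≤ ∑ i, CH p (fun ω => X ω i) W := by
  intro n
  induction n with
  | zero =>
    intro X
    rw [Finset.univ_eq_empty, Finset.sum_empty, CH_eq_zero hp]
    intro ω ω' _ _ _
    exact Subsingleton.elim _ _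
  | succ n ih =>
    intro X
    rw [Fin.sum_univ_succ]
    have h1 : CH p X W ≤ CH p (fun ω => (X ω 0, fun i : Fin n => X ω i.succ)) W := by
      refine CH_mono_left hp ?_
      intro ω ω' _ _ h
      simp only [Prod.mk.injEq] at h
      funext i
      refine Fin.cases h.1.1 (fun j => ?_) i
      exact congrFun h.1.2 j
    have h2 := CH_subadd hp (fun ω => X ω 0) (fun ω => fun i : Fin n => X ω i.succ) W
    have h3 := ih (fun ω => fun i : Fin n => X ω i.succ)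
    linarith

lemma fl_nest {m : ℕ} {x y : Fin m → ℝ} {i j : ℕ} (hij : i ≤ j) (h : fl j x = fl j y) :
    fl i x = fl i y := by
  obtain ⟨l, rfl⟩ := Nat.exists_eq_add_of_le hij
  funext a
  have h1 : ∀ z : Fin m → ℝ, fl i z a = fl (i + l) z a / ((2 ^ l : ℕ) : ℤ) := by
    intro z
    show ⌊(2 : ℝ) ^ i * z a⌋ = ⌊(2 : ℝ) ^ (i + l) * z a⌋ / ((2 ^ l : ℕ) : ℤ)
    rw [← Int.floor_div_natCast]
    congr 1
    push_cast
    rw [pow_add]
    field_simp
  rw [h1 x, h1 y, h]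

end Pool.STK.Q22

namespace Pool.STK

open Finset Real
open Pool.Agent.H49.Ent Pool.Agent.H32.Dense

theorem q22_thm (hMUL : MULStmt) (hMUI : MUIStmt) (hCN1 : CN1Stmt) (hCN2 : CN2Stmt) :
    Q22Stmt := by
  intro m Ω ζ _ p u d Z hp k N t₀ t hW
  obtain ⟨hq, -, hm2⟩ := hMUL Ω (((Fin m → ℤ) × (Fin m → ℤ)) × ζ) N p
    (fun r : Fin N => bb u d Z k r) hp
  have h1 := Q22.CH_pi (p := PP p u d Z k N) hq.nonneg
    (fun w => (Xp u d t (N * k) w.1, Z w.1)) N (zv u d t₀ k N)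
  have h2 : ∀ r : Fin N, CH (PP p u d Z k N) (fun w => zv u d t₀ k N w r)
      (fun w => (Xp u d t (N * k) w.1, Z w.1)) ≤
      CH p (Xp u d t (((r : ℕ) + 1) * k)) (fun ω => (Xp u d t ((r : ℕ) * k) ω, Z ω)) +
        2 * cc m := by
    intro r
    have e1 : CH (PP p u d Z k N) (fun w => zv u d t₀ k N w r)
        (fun w => (Xp u d t (N * k) w.1, Z w.1)) ≤
        CH (PP p u d Z k N) (fun w => zv u d t₀ k N w r)
        (fun w => (Xp u d t (((r : ℕ) + 1) * k) w.1, Z w.1)) := by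
      refine CH_mono_cond hq.nonneg ?_
      intro w w' _ _ h
      have h' := Prod.ext_iff.mp h
      refine Prod.ext ?_ h'.2
      exact Q22.fl_nest (Nat.mul_le_mul_right k r.isLt) h'.1
    have e2 := (hm2 r).CH (zz u d t₀ (((r : ℕ) + 1) * k))
      (fun w => (Xp u d t (((r : ℕ) + 1) * k) w.1, Z w.1))
    have e3 := hCN1 m Ω ζ p u d Z hp k r t₀ t hW
    exact e1.trans (e2.le.trans e3)
  have h3 := hMUI Ω (((Fin m → ℤ) × (Fin m → ℤ)) × ζ) (Fin m → ℤ) N p
    (fun r : Fin N => bb u d Z k r) hp (fun r => zz u d t₀ (((r : ℕ) + 1) * k))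
  have h3' : ∑ r : Fin N, CH (dbl p (bb u d Z k r)) (zz u d t₀ (((r : ℕ) + 1) * k))
      (fun w => w.1) ≤ CH (PP p u d Z k N) (zv u d t₀ k N) (fun w => w.1) := h3
  have h4 : ∀ r : Fin N, CH p (Xp u d t (((r : ℕ) + 1) * k)) (bb u d Z k r) ≤
      CH (dbl p (bb u d Z k r)) (zz u d t₀ (((r : ℕ) + 1) * k)) (fun w => w.1) + cc m :=
    fun r => hCN2 m Ω ζ p u d Z hp k r t₀ t hW
  have h5 : qq p u d Z k N t = ∑ r : Fin N, (II p u d Z k r t + 3 * cc m) := by
    unfold qq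
    exact Finset.sum_range (fun r => II p u d Z k r t + 3 * cc m)
  rw [h5]
  have h6 : ∑ r : Fin N, (CH (PP p u d Z k N) (fun w => zv u d t₀ k N w r)
      (fun w => (Xp u d t (N * k) w.1, Z w.1)) -
      CH (dbl p (bb u d Z k r)) (zz u d t₀ (((r : ℕ) + 1) * k)) (fun w => w.1)) ≤
      ∑ r : Fin N, (II p u d Z k r t + 3 * cc m) := by
    refine Finset.sum_le_sum fun r _ => ?_
    have a1 := h2 r
    have a2 := h4 r
    unfold II
    linarith
  rw [Finset.sum_sub_distrib] at h6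
  linarith

end Pool.STK
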