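import Pool.Agent.H90.STK.Stmts

set_option autoImplicit false

namespace Pool.STK.MUL

open Finset Real
open Pool.Agent.H49.Ent Pool.Agent.H32.Dense

variable {Ω β : Type} [Fintype Ω] {N : ℕ} {p : Ω → ℝ}

lemma law_pos (hp : IsLaw p) (b : Ω → β) {x : Ω} (hx : 0 < p x) : 0 < law p b (b x) := by
  classical
  unfold law
  refine lt_of_lt_of_le hx ?_
  have := Finset.single_le_sum (f := fun ω => if b ω = b x then p ω else 0)
    (fun i _ => by
      show (0 : ℝ) ≤ if b i = b x then p i else 0
      split_ifs
      · exact hp.nonneg i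
      · exact le_rfl) (Finset.mem_univ x)
  simpa using this

lemma sum_one (hp : IsLaw p) (b : Fin N → Ω → β) {x : Ω} (hx : 0 < p x) :
    ∑ w : Fin N → Ω, ∏ r, cond p (b r) (b r x) (w r) = 1 := by
  classical
  have h := Finset.prod_univ_sum (fun _ : Fin N => (Finset.univ : Finset Ω))
    (fun r ω => cond p (b r) (b r x) ω)
  rw [Fintype.piFinset_univ] at h
  rw [← h]
  exact Finset.prod_eq_one fun r _ => sum_cond p (b r) (law_pos hp (b r) hx).ne'

lemma sum_ite (hp : IsLaw p) (b : Fin N → Ω → β) {x : Ω} (hx : 0 < p x) (r : Fin N) (y : Ω) :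
    (open Classical in ∑ w : Fin N → Ω,
      (if w r = y then ∏ s, cond p (b s) (b s x) (w s) else 0)) = cond p (b r) (b r x) y := by
  classical
  have h := Finset.prod_univ_sum (fun _ : Fin N => (Finset.univ : Finset Ω))
    (fun s ω => (if s = r then (if ω = y then (1 : ℝ) else 0) else 1) * cond p (b s) (b s x) ω)
  rw [Fintype.piFinset_univ] at h
  have h1 : ∀ w : Fin N → Ω, (∏ s, ((if s = r then (if w s = y then (1 : ℝ) else 0) else 1) *
      cond p (b s) (b s x) (w s))) =
      if w r = y then ∏ s, cond p (b s) (b s x) (w s) else 0 := by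
    intro w
    rw [Finset.prod_mul_distrib, Finset.prod_ite_eq' Finset.univ r
      (fun s => if w s = y then (1 : ℝ) else 0), if_pos (Finset.mem_univ r)]
    split_ifs
    · rw [one_mul]
    · rw [zero_mul]
  rw [Finset.sum_congr rfl fun w _ => (h1 w).symm, ← h,
    Finset.prod_eq_single r]
  · simp
  · intro s _ hs
    simp only [if_neg hs, one_mul]
    exact sum_cond p (b s) (law_pos hp (b s) hx).ne'
  · intro hr
    exact absurd (Finset.mem_univ r) hr

lemma marg1 (hp : IsLaw p) (b : Fin N → Ω → β) : Marg (multi p b) p (fun w => w.1) := by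
  classical
  intro x
  rw [Fintype.sum_prod_type, Finset.sum_eq_single x]
  · simp only [if_true]
    unfold multi
    simp only
    rw [← Finset.mul_sum]
    rcases (hp.nonneg x).eq_or_lt with h0 | h0
    · rw [← h0, zero_mul]
    · rw [sum_one hp b h0, mul_one]
  · intro y _ hy
    exact Finset.sum_eq_zero fun w _ => if_neg hy
  · intro h
    exact absurd (Finset.mem_univ x) h

end Pool.STK.MUL

namespace Pool.STK

open Finset Real
open Pool.Agent.H49.Ent Pool.Agent.H32.Dense

theorem mul_thm : MULStmt := by
  classical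
  intro Ω β _ N p b hp
  have h0 : ∀ w, 0 ≤ multi p b w := fun w => mul_nonneg (hp.nonneg _)
    (Finset.prod_nonneg fun r _ => cond_nonneg hp.nonneg _ _ _)
  refine ⟨⟨h0, ?_⟩, MUL.marg1 hp b, ?_⟩
  · rw [(MUL.marg1 hp b).sum]
    exact hp.sum_one
  · rintro r ⟨x, y⟩
    rw [Fintype.sum_prod_type, Finset.sum_eq_single x]
    · trans ∑ w : Fin N → Ω, p x * (if w r = y then ∏ s, cond p (b s) (b s x) (w s) else 0)
      · refine Finset.sum_congr rfl fun w _ => ?_
        by_cases hw : w r = y
        · rw [if_pos (show (x, w r) = (x, y) by rw [hw]), if_pos hw]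
          rfl
        · rw [if_neg (show ¬ (x, w r) = (x, y) from fun h => hw (Prod.ext_iff.mp h).2),
            if_neg hw, mul_zero]
      rw [← Finset.mul_sum]
      unfold dbl glue
      simp only
      rcases (hp.nonneg x).eq_or_lt with hx | hx
      · rw [← hx]
        simp
      · rw [MUL.sum_ite hp b hx r y]
        unfold Pool.Agent.H49.Ent.cond
        by_cases hb : b r x = b r y
        · rw [if_pos hb.symm, if_pos hb]
          ring
        · rw [if_neg (fun h => hb h.symm), if_neg hb, mul_zero]
    · intro z _ hz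
      refine Finset.sum_eq_zero fun w _ => if_neg ?_
      intro h
      exact hz (Prod.ext_iff.mp h).1
    · intro h
      exact absurd (Finset.mem_univ x) h

end Pool.STK
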