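import Pool.Agent.H90.STK.Stmts

set_option autoImplicit false

namespace Pool.STK

open Finset Real
open Pool.Agent.H49.Ent Pool.Agent.H32.Dense

theorem cth_thm (hPR2 : PR2Stmt) : CTHStmt := by
  intro Ω Ω' G _ _ _ p q x B C hp hq h
  obtain ⟨hl, hm1, -, hpair⟩ := hPR2 Ω Ω' G G p q hp hq
  have h1 := h 1
  have h2 := subadd hl.nonneg hl.sum_one (X := fun w => x w.1 + (1 : ℤ) • B w.2)
    (Y := fun w => x w.1) (W := fun w => (x w.1, B w.2))
    (fun w w' _ _ e => by
      simp only [Prod.mk.injEq, one_smul] at e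
      simp only [Prod.mk.injEq]
      refine ⟨e.2, ?_⟩
      have h3 := e.1
      rw [e.2] at h3
      exact add_left_cancel h3)
  have h3 := hm1.H x
  have h4 := hpair x B
  rw [Int.cast_one, abs_one, one_mul] at h1
  linarith

end Pool.STK
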