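import Pool.Agent.H90.STK.Stmts

set_option autoImplicit false

namespace Pool.STK

open Finset Real
open Pool.Agent.H49.Ent Pool.Agent.H32.Dense

theorem tri_thm : TRIStmt := by
  intro Ω G _ _ p hp A B C h
  have h1 := submod hp.nonneg (X := fun ω => (A ω - B ω, B ω - C ω)) (Y := fun ω => (A ω, C ω))
    (Z := fun ω => A ω - C ω) (W := fun ω => ((A ω, C ω), B ω))
    (fun ω ω' _ _ e => by
      simp only [Prod.mk.injEq] at e
      show A ω - C ω = A ω' - C ω'
      rw [← sub_add_sub_cancel (A ω) (B ω) (C ω), ← sub_add_sub_cancel (A ω') (B ω') (C ω'),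
        e.1, e.2])
    (fun ω ω' _ _ e => by
      simp only [Prod.mk.injEq] at e
      show A ω - C ω = A ω' - C ω'
      rw [e.1, e.2])
    (fun ω ω' _ _ e => by
      simp only [Prod.mk.injEq] at e
      simp only [Prod.mk.injEq]
      refine ⟨e.2, ?_⟩
      have h2 := e.1.1
      rw [e.2.1] at h2
      exact sub_right_injective h2)
  have h3 := CH_subadd hp.nonneg (fun ω => A ω - B ω) (fun ω => B ω - C ω) (fun _ => ())
  have h4 : ∀ (S : Type) (X : Ω → S), CH p X (fun _ => ()) = H p X - H p (fun _ : Ω => ()) := by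
    intro S X
    unfold CH
    rw [H_congr hp.nonneg (X := fun ω => (X ω, ())) (Y := X)
      (fun ω ω' _ _ e => (Prod.ext_iff.mp e).1) (fun ω ω' _ _ e => Prod.ext e rfl)]
  have h5 : H p (fun _ : Ω => ()) = 0 := by
    unfold H
    rw [neg_eq_zero]
    refine Finset.sum_eq_zero fun ω _ => ?_
    have : law p (fun _ : Ω => ()) () = 1 := by
      unfold law
      simp [hp.sum_one]
    rw [this, Real.log_one, mul_zero]
  rw [h4, h4, h4, h5] at h3
  linarith

end Pool.STK
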